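import Pool.Agent.helper38.OP.Spec

set_option autoImplicit false

namespace Pool.Agent.OP

open Finset Real Pool.Agent.AT Pool.Agent.helper85.FC Pool.Agent.OM

theorem TRN_symm {a b : ℕ} {c : ℤ} (h : TrueCase a b c) : TrueCase b a (-c) := by
  obtain ⟨ha, hb, hc, hab, hac, hbc, hodd, hinf⟩ := h
  refine ⟨hb, ha, neg_ne_zero.2 hc, hab.symm, hbc.neg_right, hac.neg_right, ?_, ?_⟩
  · rintro ⟨h1, h2, h3⟩
    exact hodd ⟨h2, h1, by simpa using h3⟩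
  · have h1 := hinf.image (f := Prod.swap) (Prod.swap_injective.injOn)
    refine h1.mono ?_
    rintro _ ⟨⟨p, q⟩, ⟨hp, hq, hpq⟩, rfl⟩
    refine ⟨hq, hp, ?_⟩
    simp only [Prod.fst_swap, Prod.snd_swap] at hpq ⊢
    linarith

theorem TRN_NC (σ : ℤ) (a b m q s X : ℕ) : NC (-σ) b a m q s X = NC σ a b m q s X := by
  classical
  unfold NC
  refine congrArg Finset.card (Finset.filter_congr ?_)
  intro c _
  constructor
  · rintro ⟨h1, h2⟩
    refine ⟨h1, ?_⟩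
    have h3 := TRN_symm h2
    rwa [show -(-σ * (c : ℤ)) = σ * c by ring] at h3
  · rintro ⟨h1, h2⟩
    refine ⟨h1, ?_⟩
    have h3 := TRN_symm h2
    rwa [show -(σ * (c : ℤ)) = -σ * c by ring] at h3

theorem TRN_main (σ : ℤ) (hσ : σ = 1 ∨ σ = -1) (A B M N m ρ : ℕ) (hA : 1 ≤ A) (hAB : A < B) (hm : 1 ≤ m)
    (hρ : ρ < M) (η : ℝ)
    (h : ∑ v ∈ range (B ^ m * (M * N)) with v % M = ρ, BS σ A B m v < η * ((B : ℝ) ^ m * N)) :
    ∃ s < 6 * A * B * M, (1 - η) * ((B : ℝ) ^ m * N) - ((B : ℝ) ^ m + 1) ≤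
      (NC σ A B m (6 * A * B * M) s (B ^ m + 6 * A * B * M * (B ^ m * N)) : ℕ) := by
  classical
  have hM : 1 ≤ M := by omega
  have hB : 1 ≤ B := by omega
  have hAm : 1 ≤ A ^ m := Nat.one_le_pow _ _ hA
  have hABm : A ^ m < B ^ m := Nat.pow_lt_pow_left hAB (by omega)
  set n : ℕ := B ^ m * N with hn
  set q : ℕ := 6 * A * B * M with hq
  have hABpos : 1 ≤ A * B := Nat.mul_pos hA hB
  have hqpos : 1 ≤ q := by
    rw [hq]
    exact Nat.mul_pos (Nat.mul_pos (Nat.mul_pos (by norm_num) hA) hB) hM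
  have hqM : M ≤ q := by
    rw [hq]
    exact Nat.le_mul_of_pos_left M (by positivity)
  -- the parametrization
  let c : ℕ → ℤ := fun w => σ * ((B : ℤ) ^ m - (A : ℤ) ^ m) + 6 * A * B * ((ρ + M * w : ℕ) : ℤ)
  let TT : ℕ → Prop := fun w => TrueCase (B ^ m) (A ^ m) ((B : ℤ) ^ m - (A : ℤ) ^ m + 6 * A * B * (σ * ((ρ + M * w : ℕ) : ℤ)))
  have hσ2 : σ * σ = 1 := by rcases hσ with rfl | rfl <;> norm_num
  have hDpos : (0 : ℤ) < (B : ℤ) ^ m - (A : ℤ) ^ m := by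
    have : ((A ^ m : ℕ) : ℤ) < ((B ^ m : ℕ) : ℤ) := by exact_mod_cast hABm
    push_cast at this
    linarith
  have hDle : (B : ℤ) ^ m - (A : ℤ) ^ m ≤ (B : ℤ) ^ m - 1 := by
    have : ((1 : ℕ) : ℤ) ≤ ((A ^ m : ℕ) : ℤ) := by exact_mod_cast hAm
    push_cast at this
    linarith
  have hσD : -((B : ℤ) ^ m - (A : ℤ) ^ m) ≤ σ * ((B : ℤ) ^ m - (A : ℤ) ^ m) ∧
      σ * ((B : ℤ) ^ m - (A : ℤ) ^ m) ≤ (B : ℤ) ^ m - (A : ℤ) ^ m := by
    rcases hσ with rfl | rfl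
    · constructor <;> linarith
    · constructor <;> linarith
  -- sum of BS over w
  have hsum : ∑ w ∈ range n, BS σ A B m ((ρ + M * w : ℕ) : ℤ) < η * ((B : ℝ) ^ m * N) := by
    refine lt_of_le_of_lt ?_ h
    have hinj : Set.InjOn (fun w : ℕ => ρ + M * w) (range n : Set ℕ) := by
      intro w _ w' _ hww
      have h1 : M * w = M * w' := by
        have : ρ + M * w = ρ + M * w' := hww
        omega
      exact Nat.eq_of_mul_eq_mul_left hM h1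
    have h2 : ∑ w ∈ range n, BS σ A B m ((ρ + M * w : ℕ) : ℤ) =
        ∑ v ∈ (range n).image (fun w : ℕ => ρ + M * w), BS σ A B m (v : ℤ) := by
      rw [Finset.sum_image hinj]
    rw [h2]
    refine Finset.sum_le_sum_of_subset_of_nonneg ?_ ?_
    · intro v hv
      obtain ⟨w, hw, rfl⟩ := Finset.mem_image.1 hv
      rw [Finset.mem_filter, Finset.mem_range]
      have hw' : w < n := Finset.mem_range.1 hw
      refine ⟨?_, ?_⟩
      · have h3 : M * (w + 1) ≤ M * n := Nat.mul_le_mul_left M hw'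
        have h4 : M * n = B ^ m * (M * N) := by rw [hn]; ring
        have h5 : M * (w + 1) = M * w + M := by ring
        omega
      · rw [Nat.add_mul_mod_self_left, Nat.mod_eq_of_lt hρ]
    · intro v _ _
      unfold BS
      split_ifs
      · exact le_refl _
      · exact zero_le_one
  have hcount : (n : ℝ) = ((#{w ∈ range n | TT w} : ℕ) : ℝ) + ∑ w ∈ range n, BS σ A B m ((ρ + M * w : ℕ) : ℤ) := by
    have h1 : ∀ w, BS σ A B m ((ρ + M * w : ℕ) : ℤ) = if TT w then (0 : ℝ) else 1 := fun w => rfl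
    have h2 : ((#{w ∈ range n | TT w} : ℕ) : ℝ) = ∑ w ∈ range n, if TT w then (1 : ℝ) else 0 := by
      rw [Finset.sum_boole]
    rw [h2, ← Finset.sum_add_distrib]
    have h3 : ∀ w ∈ range n, ((if TT w then (1 : ℝ) else 0) + BS σ A B m ((ρ + M * w : ℕ) : ℤ)) = 1 := by
      intro w _
      rw [h1 w]
      split_ifs <;> norm_num
    rw [Finset.sum_congr rfl h3]
    simp
  -- nonpositive ones
  have hneg : #{w ∈ range n | c w ≤ 0} ≤ B ^ m + 1 := by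
    have h1 : {w ∈ range n | c w ≤ 0} ⊆ range (B ^ m + 1) := by
      intro w hw
      rw [Finset.mem_filter] at hw
      rw [Finset.mem_range]
      have h2 : c w ≤ 0 := hw.2
      have h3 : σ * ((B : ℤ) ^ m - (A : ℤ) ^ m) + 6 * A * B * ((ρ + M * w : ℕ) : ℤ) ≤ 0 := h2
      have h4 : (w : ℤ) ≤ 6 * A * B * ((ρ + M * w : ℕ) : ℤ) := by
        have h5 : w ≤ 6 * A * B * (ρ + M * w) := by
          calc w ≤ M * w := Nat.le_mul_of_pos_left w hM
            _ ≤ ρ + M * w := Nat.le_add_left _ _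
            _ ≤ 6 * A * B * (ρ + M * w) := Nat.le_mul_of_pos_left _ (by positivity)
        exact_mod_cast h5
      have h6 : (w : ℤ) ≤ (B : ℤ) ^ m := by linarith [hσD.1, hDle]
      have h7 : w ≤ B ^ m := by exact_mod_cast h6
      omega
    calc #{w ∈ range n | c w ≤ 0} ≤ #(range (B ^ m + 1)) := Finset.card_le_card h1
      _ = B ^ m + 1 := Finset.card_range _
  set s : ℕ := ((σ * ((B : ℤ) ^ m - (A : ℤ) ^ m) + 6 * A * B * (ρ : ℤ)) % (q : ℤ)).toNat with hs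
  have hs0 : (s : ℤ) = (σ * ((B : ℤ) ^ m - (A : ℤ) ^ m) + 6 * A * B * (ρ : ℤ)) % (q : ℤ) := by
    rw [hs]
    exact Int.toNat_of_nonneg (Int.emod_nonneg _ (by omega))
  have hsq : s < q := by
    have h1 : (s : ℤ) < q := by
      rw [hs0]
      exact Int.emod_lt_of_pos _ (by omega)
    exact_mod_cast h1
  refine ⟨s, hsq, ?_⟩
  have hmap : #{w ∈ range n | TT w ∧ 0 < c w} ≤ NC σ A B m q s (B ^ m + q * n) := by
    unfold NC
    refine Finset.card_le_card_of_injOn (fun w => (c w).toNat) ?_ ?_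
    · intro w hw
      rw [Finset.mem_coe, Finset.mem_filter] at hw
      obtain ⟨hw1, hw2, hw3⟩ := hw
      have hw' : w < n := Finset.mem_range.1 hw1
      have hcn : ((c w).toNat : ℤ) = c w := Int.toNat_of_nonneg hw3.le
      rw [Finset.mem_coe, Finset.mem_filter, Finset.mem_Icc]
      refine ⟨⟨?_, ?_⟩, ?_, ?_⟩
      · have h0 : (0 : ℤ) < ((c w).toNat : ℤ) := by rw [hcn]; exact hw3
        have h0' : 0 < (c w).toNat := by exact_mod_cast h0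
        exact h0'
      · have h1 : c w ≤ ((B ^ m + q * n : ℕ) : ℤ) := by
          have h2 : 6 * A * B * (ρ + M * w) ≤ q * n := by
            have h3 : ρ + M * w ≤ M * n := by
              have h4 : M * (w + 1) ≤ M * n := Nat.mul_le_mul_left M hw'
              have h5 : M * (w + 1) = M * w + M := by ring
              omega
            calc 6 * A * B * (ρ + M * w) ≤ 6 * A * B * (M * n) := Nat.mul_le_mul_left _ h3
              _ = q * n := by rw [hq]; ring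
          have h6 : (6 * A * B * ((ρ + M * w : ℕ) : ℤ)) ≤ ((q * n : ℕ) : ℤ) := by exact_mod_cast h2
          have h7 : ((B ^ m + q * n : ℕ) : ℤ) = (B : ℤ) ^ m + ((q * n : ℕ) : ℤ) := by push_cast; ring
          rw [h7]
          show σ * ((B : ℤ) ^ m - (A : ℤ) ^ m) + 6 * A * B * ((ρ + M * w : ℕ) : ℤ) ≤ _
          linarith [hσD.2, hDle]
        have h8 : ((c w).toNat : ℤ) ≤ ((B ^ m + q * n : ℕ) : ℤ) := by rw [hcn]; exact h1
        exact_mod_cast h8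
      · have h1 : (((c w).toNat % q : ℕ) : ℤ) = (s : ℤ) := by
          rw [Int.natCast_mod, hcn, hs0]
          have h2 : c w = σ * ((B : ℤ) ^ m - (A : ℤ) ^ m) + 6 * A * B * (ρ : ℤ) + (q : ℤ) * w := by
            show σ * ((B : ℤ) ^ m - (A : ℤ) ^ m) + 6 * A * B * ((ρ + M * w : ℕ) : ℤ) = _
            rw [hq]
            push_cast
            ring
          rw [h2, Int.add_mul_emod_self_left]
        exact_mod_cast h1
      · rw [hcn]
        have h1 : σ * c w = (B : ℤ) ^ m - (A : ℤ) ^ m + 6 * A * B * (σ * ((ρ + M * w : ℕ) : ℤ)) := by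
          show σ * (σ * ((B : ℤ) ^ m - (A : ℤ) ^ m) + 6 * A * B * ((ρ + M * w : ℕ) : ℤ)) = _
          have h2 : σ * (σ * ((B : ℤ) ^ m - (A : ℤ) ^ m) + 6 * A * B * ((ρ + M * w : ℕ) : ℤ)) =
            (σ * σ) * ((B : ℤ) ^ m - (A : ℤ) ^ m) + 6 * A * B * (σ * ((ρ + M * w : ℕ) : ℤ)) := by ring
          rw [h2, hσ2, one_mul]
        rw [h1]
        exact hw2
    · intro w hw w' hw' hww
      rw [Finset.mem_coe, Finset.mem_filter] at hw hw'
      have h1 : ((c w).toNat : ℤ) = c w := Int.toNat_of_nonneg hw.2.2.le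
      have h2 : ((c w').toNat : ℤ) = c w' := Int.toNat_of_nonneg hw'.2.2.le
      have h3 : (c w).toNat = (c w').toNat := hww
      have h4 : c w = c w' := by rw [← h1, ← h2, h3]
      have h5 : σ * ((B : ℤ) ^ m - (A : ℤ) ^ m) + 6 * A * B * ((ρ + M * w : ℕ) : ℤ) =
        σ * ((B : ℤ) ^ m - (A : ℤ) ^ m) + 6 * A * B * ((ρ + M * w' : ℕ) : ℤ) := h4
      have h6 : (6 * A * B : ℤ) * ((ρ + M * w : ℕ) : ℤ) = (6 * A * B : ℤ) * ((ρ + M * w' : ℕ) : ℤ) := by linarith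
      have h7 : (6 * A * B : ℤ) ≠ 0 := by positivity
      have h8 : ((ρ + M * w : ℕ) : ℤ) = ((ρ + M * w' : ℕ) : ℤ) := mul_left_cancel₀ h7 h6
      have h9 : ρ + M * w = ρ + M * w' := by exact_mod_cast h8
      have h10 : M * w = M * w' := by omega
      exact Nat.eq_of_mul_eq_mul_left hM h10
  have hsplit : #{w ∈ range n | TT w} ≤ #{w ∈ range n | TT w ∧ 0 < c w} + #{w ∈ range n | c w ≤ 0} := by
    refine le_trans (Finset.card_le_card ?_) (Finset.card_union_le _ _)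
    intro w hw
    rw [Finset.mem_filter] at hw
    rw [Finset.mem_union, Finset.mem_filter, Finset.mem_filter]
    by_cases hc : c w ≤ 0
    · exact Or.inr ⟨hw.1, hc⟩
    · exact Or.inl ⟨hw.1, hw.2, not_le.1 hc⟩
  have hfin : #{w ∈ range n | TT w} ≤ NC σ A B m q s (B ^ m + q * n) + (B ^ m + 1) := by omega
  have hfin' : ((#{w ∈ range n | TT w} : ℕ) : ℝ) ≤ (NC σ A B m q s (B ^ m + q * n) : ℕ) + ((B : ℝ) ^ m + 1) := by
    have h1 : ((#{w ∈ range n | TT w} : ℕ) : ℝ) ≤ ((NC σ A B m q s (B ^ m + q * n) + (B ^ m + 1) : ℕ) : ℝ) := by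
      exact_mod_cast hfin
    push_cast at h1
    exact h1
  have hnr : (n : ℝ) = (B : ℝ) ^ m * N := by rw [hn]; push_cast; ring
  rw [hnr] at hcount
  linarith

theorem TRN_core (ε : ℝ) (hε : 0 < ε) (hε1 : ε ≤ 1) (L : ℕ) (lam : ℝ) (hlam : 0 < lam)
    (H : ∀ σ : ℤ, σ = 1 ∨ σ = -1 → ∀ a b : ℕ, 1 ≤ a → Nat.Coprime a b →
      (a : ℝ) ≤ lam * b → ∃ N₀ : ℕ, ∀ N : ℕ, N₀ ≤ N → ∃ m ∈ Ico 1 L, ∃ r < b ^ L * MM1 a b L,
        ∑ v ∈ range (b ^ m * (b ^ L * MM1 a b L * N)) with v % (b ^ L * MM1 a b L) = r, BS σ a b m v < (ε / 4) * ((b : ℝ) ^ m * N))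
    (a b : ℕ) (ha : 1 ≤ a) (hab : Nat.Coprime a b) (hlt : a < b) (σ : ℤ) (hσ : σ = 1 ∨ σ = -1) :
    ∃ r₀ : ℕ, ∀ r : ℕ, r₀ ≤ r → ∃ q C X₀ : ℕ, 1 ≤ q ∧ ∀ X : ℕ, X₀ ≤ X → ∃ m ∈ Ico 1 L, ∃ s < q, ∃ X' : ℕ, X ≤ X' ∧ X' ≤ C * X ∧
      (1 - ε) * X' ≤ q * NC σ a b (r * m) q s X' := by
  have hb : 1 ≤ b := by omega
  have hbR : (0 : ℝ) < b := by exact_mod_cast hb
  have hratio : Filter.Tendsto (fun r : ℕ => ((a : ℝ) / b) ^ r) Filter.atTop (nhds 0) := by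
    refine tendsto_pow_atTop_nhds_zero_of_lt_one (by positivity) ?_
    rw [div_lt_one hbR]
    exact_mod_cast hlt
  obtain ⟨r₁, hr₁⟩ := Filter.eventually_atTop.1 (hratio.eventually (gt_mem_nhds hlam))
  refine ⟨max r₁ 1, ?_⟩
  intro r hr
  have hr1 : r₁ ≤ r := le_trans (le_max_left _ _) hr
  have hr2 : 1 ≤ r := le_trans (le_max_right _ _) hr
  have hAB : a ^ r < b ^ r := Nat.pow_lt_pow_left hlt (by omega)
  have hA : 1 ≤ a ^ r := Nat.one_le_pow _ _ ha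
  have hB : 1 ≤ b ^ r := Nat.one_le_pow _ _ hb
  have hcop : Nat.Coprime (a ^ r) (b ^ r) := Nat.Coprime.pow _ _ hab
  have hsm : ((a ^ r : ℕ) : ℝ) ≤ lam * ((b ^ r : ℕ) : ℝ) := by
    have h1 := hr₁ r hr1
    rw [div_pow, div_lt_iff₀ (by positivity)] at h1
    push_cast
    exact h1.le
  obtain ⟨N₀, hN₀⟩ := H σ hσ (a ^ r) (b ^ r) hA hcop hsm
  set A : ℕ := a ^ r with hAdef
  set B : ℕ := b ^ r with hBdef
  set M : ℕ := B ^ L * MM1 A B L with hMdef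
  have hMpos : 1 ≤ M := by
    obtain ⟨m, _, ρ, hρ, _⟩ := hN₀ N₀ le_rfl
    omega
  have hqpos : 1 ≤ 6 * A * B * M := Nat.mul_pos (Nat.mul_pos (Nat.mul_pos (by norm_num) hA) hB) hMpos
  set q : ℕ := 6 * A * B * M with hqdef
  obtain ⟨X₁, hX₁⟩ := exists_nat_ge (2 * ((B : ℝ) ^ L + q * ((B : ℝ) ^ L + 1)) / ε)
  refine ⟨q, B ^ L + q * B ^ L, max (max N₀ X₁) 1, hqpos, ?_⟩
  intro X hX
  have hXN : N₀ ≤ X := le_trans (le_trans (le_max_left _ _) (le_max_left _ _)) hX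
  have hXX : X₁ ≤ X := le_trans (le_trans (le_max_right _ _) (le_max_left _ _)) hX
  have hX1 : 1 ≤ X := le_trans (le_max_right _ _) hX
  obtain ⟨m, hm, ρ, hρ, hsum⟩ := hN₀ X hXN
  have hm1 : 1 ≤ m := (Finset.mem_Ico.1 hm).1
  have hmL : m < L := (Finset.mem_Ico.1 hm).2
  obtain ⟨s, hs, hNC⟩ := TRN_main σ hσ A B M X m ρ hA hAB hm1 hρ (ε / 4) hsum
  have hBm : 1 ≤ B ^ m := Nat.one_le_pow _ _ hB
  have hBmL : B ^ m ≤ B ^ L := Nat.pow_le_pow_right hB hmL.le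
  refine ⟨m, hm, s, hs, B ^ m + q * (B ^ m * X), ?_, ?_, ?_⟩
  · have h1 : X ≤ B ^ m * X := Nat.le_mul_of_pos_left X hBm
    have h2 : B ^ m * X ≤ q * (B ^ m * X) := Nat.le_mul_of_pos_left _ hqpos
    omega
  · have h1 : B ^ m ≤ B ^ L * X := by
      calc B ^ m ≤ B ^ L := hBmL
        _ ≤ B ^ L * X := Nat.le_mul_of_pos_right _ hX1
    have h2 : q * (B ^ m * X) ≤ q * B ^ L * X := by
      calc q * (B ^ m * X) ≤ q * (B ^ L * X) := Nat.mul_le_mul_left _ (Nat.mul_le_mul_right _ hBmL)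
        _ = q * B ^ L * X := by ring
    calc B ^ m + q * (B ^ m * X) ≤ B ^ L * X + q * B ^ L * X := Nat.add_le_add h1 h2
      _ = (B ^ L + q * B ^ L) * X := by ring
  · have hNCeq : NC σ a b (r * m) q s (B ^ m + q * (B ^ m * X)) = NC σ A B m q s (B ^ m + q * (B ^ m * X)) := by
      unfold NC
      rw [hAdef, hBdef, ← pow_mul, ← pow_mul]
    rw [hNCeq]
    have hBmR : (B : ℝ) ^ m ≤ (B : ℝ) ^ L := by exact_mod_cast hBmL
    have hBm1R : (1 : ℝ) ≤ (B : ℝ) ^ m := by exact_mod_cast hBm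
    have hqR : (1 : ℝ) ≤ q := by exact_mod_cast hqpos
    have hXR : (X₁ : ℝ) ≤ X := by exact_mod_cast hXX
    have h1 : 2 * ((B : ℝ) ^ L + q * ((B : ℝ) ^ L + 1)) ≤ ε * X := by
      have h2 : 2 * ((B : ℝ) ^ L + q * ((B : ℝ) ^ L + 1)) / ε ≤ X := le_trans hX₁ hXR
      rw [div_le_iff₀ hε] at h2
      linarith
    have hX0 : (0 : ℝ) ≤ X := by positivity
    have h3 : (X : ℝ) ≤ q * ((B : ℝ) ^ m * X) := by
      have h4 : (X : ℝ) ≤ (B : ℝ) ^ m * X := by nlinarith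
      have h5 : (B : ℝ) ^ m * X ≤ q * ((B : ℝ) ^ m * X) := by
        have : 0 ≤ (B : ℝ) ^ m * X := by positivity
        nlinarith
      linarith
    have h6 : (q : ℝ) * ((1 - ε / 4) * ((B : ℝ) ^ m * X) - ((B : ℝ) ^ m + 1)) ≤
        q * (NC σ A B m q s (B ^ m + q * (B ^ m * X)) : ℕ) := mul_le_mul_of_nonneg_left hNC (by positivity)
    refine le_trans ?_ h6
    push_cast
    have h7 : (q : ℝ) * ((B : ℝ) ^ m + 1) ≤ q * ((B : ℝ) ^ L + 1) := by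
      refine mul_le_mul_of_nonneg_left ?_ (by positivity)
      linarith
    have h8 : ε * X ≤ ε * (q * ((B : ℝ) ^ m * X)) := mul_le_mul_of_nonneg_left h3 hε.le
    have h9 : 0 ≤ (q : ℝ) * ((B : ℝ) ^ L + 1) := by positivity
    have h10 : ε * (B : ℝ) ^ m ≥ 0 := by positivity
    nlinarith
  

theorem TRN (hNHR : NHR_stmt) : TRN_stmt := by
  intro hQ ε hε
  set ε₁ : ℝ := min ε 1 with hε₁
  have hε₁pos : 0 < ε₁ := lt_min hε one_pos
  have hε₁1 : ε₁ ≤ 1 := min_le_right _ _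
  have hε₁ε : ε₁ ≤ ε := min_le_left _ _
  obtain ⟨L, lam, hlam, H⟩ := hNHR hQ (ε₁ / 4) (by positivity)
  refine ⟨L, ?_⟩
  intro a b ha hb hab hne σ hσ
  have hweak : ∀ (σ' : ℤ) (a' b' : ℕ), (∃ r₀ : ℕ, ∀ r : ℕ, r₀ ≤ r → ∃ q C X₀ : ℕ, 1 ≤ q ∧ ∀ X : ℕ, X₀ ≤ X →
      ∃ m ∈ Ico 1 L, ∃ s < q, ∃ X' : ℕ, X ≤ X' ∧ X' ≤ C * X ∧ (1 - ε₁) * X' ≤ q * NC σ' a' b' (r * m) q s X') →
      (∃ r₀ : ℕ, ∀ r : ℕ, r₀ ≤ r → ∃ q C X₀ : ℕ, 1 ≤ q ∧ ∀ X : ℕ, X₀ ≤ X →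
      ∃ m ∈ Ico 1 L, ∃ s < q, ∃ X' : ℕ, X ≤ X' ∧ X' ≤ C * X ∧ (1 - ε) * X' ≤ q * NC σ' a' b' (r * m) q s X') := by
    rintro σ' a' b' ⟨r₀, h⟩
    refine ⟨r₀, fun r hr => ?_⟩
    obtain ⟨q, C, X₀, hq, h1⟩ := h r hr
    refine ⟨q, C, X₀, hq, fun X hX => ?_⟩
    obtain ⟨m, hm, s, hs, X', h2, h3, h4⟩ := h1 X hX
    refine ⟨m, hm, s, hs, X', h2, h3, le_trans ?_ h4⟩
    have : (0 : ℝ) ≤ X' := by positivity
    nlinarith
  refine hweak σ a b ?_
  rcases Nat.lt_or_gt_of_ne hne with hlt | hgt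
  · exact TRN_core ε₁ hε₁pos hε₁1 L lam hlam H a b ha hab hlt σ hσ
  · have hσ' : -σ = 1 ∨ -σ = -1 := by
      rcases hσ with rfl | rfl
      · right; rfl
      · left; norm_num
    have h1 := TRN_core ε₁ hε₁pos hε₁1 L lam hlam H b a hb hab.symm hgt (-σ) hσ'
    obtain ⟨r₀, h2⟩ := h1
    refine ⟨r₀, fun r hr => ?_⟩
    obtain ⟨q, C, X₀, hq, h3⟩ := h2 r hr
    refine ⟨q, C, X₀, hq, fun X hX => ?_⟩
    obtain ⟨m, hm, s, hs, X', h4, h5, h6⟩ := h3 X hX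
    refine ⟨m, hm, s, hs, X', h4, h5, ?_⟩
    rw [TRN_NC] at h6
    exact h6

end Pool.Agent.OP
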